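import Pool.Agent.Helper56.HS.Stm
import Pool.Agent.Helper56.SA.Df
import Pool.Agent.Helper35.EM.Crit

/-! Project HS: transcendence degree and rank. -/

set_option autoImplicit false

namespace Pool.Agent.Helper63.HS

open Pool.Agent.Helper35.EM Pool.Agent.Helper56.SA Pool.Agent.Helper56.EM Set

theorem trdeg_le_of_rk {A : Set ℂ} {k : ℕ} (h : M.eRk A ≤ (k : ℕ∞)) :
    Algebra.trdeg ℚ (IntermediateField.adjoin ℚ A) ≤ (k : Cardinal) := by
  obtain ⟨B, hB⟩ := M.exists_isBasis A
  have h1 : B.encard ≤ (k : ℕ∞) := by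
    rw [hB.encard_eq_eRk]
    exact h
  exact trdeg_le (K := ℂ) (A := A) (B := B) h1 fun x hx => hB.subset_closure hx

/-- Package TRD: transcendence degree and rank. -/
theorem trd : Pool.Agent.Helper56.HS.S_TRD := by
  intro A k
  refine ⟨⟨fun h => trdeg_of_rk' A h, fun h => ?_⟩, ⟨fun h => trdeg_le_of_rk h, fun h => ?_⟩⟩
  · by_contra h1
    rw [not_le] at h1
    cases k with
    | zero => simp at h1
    | succ m =>
      have h2 : M.eRk A ≤ (m : ℕ∞) := by
        rw [Nat.cast_succ] at h1
        exact Order.le_of_lt_add_one h1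
      have h3 := h.trans (trdeg_le_of_rk h2)
      have h4 : m + 1 ≤ m := by exact_mod_cast h3
      omega
  · by_contra h1
    rw [not_le] at h1
    have h2 : ((k + 1 : ℕ) : ℕ∞) ≤ M.eRk A := by
      rw [Nat.cast_succ]
      exact Order.add_one_le_of_lt h1
    have h3 := (trdeg_of_rk' A h2).trans h
    have h4 : k + 1 ≤ k := by exact_mod_cast h3
    omega

end Pool.Agent.Helper63.HS
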